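import Pool.Agent.H15.Amalgam
import Pool.Graph.R_pool_sql_team_seeded_b0a926ef.R553.HW.Perf
import Pool.Graph.R_pool_sql_team_seeded_b0a926ef.R553.HW.Cyc
import Pool.Graph.R_pool_sql_team_seeded_63374d34.N684.HI.F

/-!
# Hadwiger's conjecture and amalgams of graphs

MP_b47bfb_co: the class of the graphs all of whose clique inflations satisfy Hadwiger's conjecture
is closed under amalgams (in the sense of Burlet and Fonlupt), in particular under `1`-joins (the
inverse of the split decomposition of Cunningham). Together with the earlier closure under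
substitution, gluing along cliques and induced subgraphs, Hadwiger's conjecture, and so Q1, holds
for every finite graph that is built by these operations from perfect graphs, odd cycles and
`2K₂`-free graphs.

Proof of the amalgam step. Let `G` be an inflation of the amalgam, with `X₁, X₂, A₁, A₂` and the
clique `K` of the vertices common to `X₁` and `X₂`, and suppose that `G` is not `k`-colourable. Let
`G_i(c)` be `G[X_i]` with `c` new pairwise adjacent vertices that are complete to `K ∪ A_i`; this is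
an inflation of the `i`-th piece. Let `c_i` be maximal such that `G_i(c_i)` is `k`-colourable. By
permuting colours, `c₁ + c₂ + |K| ≤ k - 1`. Take a `K_{k+1}` minor of `G₁(c₁ + 1)`. If a branch set
consists of new vertices, then at least `k - c₁ - |K| ≥ c₂ + 1` branch sets lie in `X₁ \ K` and meet
`A₁`, and they can play the new vertices of `G₂(c₂ + 1)`. Otherwise, if `|A₂| ≥ c₁ + 1`, the
new vertices can be replaced by vertices of `A₂`, and if `|A₂| ≤ c₁`, a `k`-colouring of `G[X₂]`
leaves `k - |K| - c₁ ≥ c₂ + 1` colours for new vertices, a contradiction.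
-/

set_option autoImplicit false

namespace Pool.Agent.Results.MP_b47bfb_co.AmalgamClosure

/-- `K_k` is a minor of `G`: there are `k` pairwise disjoint vertex sets, each inducing a connected
subgraph, any two of them joined by an edge of `G`. -/
def HasCliqueMinor {V : Type} (G : SimpleGraph V) (k : ℕ) : Prop :=
  ∃ f : Fin k → Set V,
    (∀ i, (G.induce (f i)).Connected) ∧
    (∀ i j, i ≠ j → Disjoint (f i) (f j)) ∧
    (∀ i j, i ≠ j → ∃ u ∈ f i, ∃ v ∈ f j, G.Adj u v)

/-- Hadwiger's conjecture holds for `G`: if `G` is not `k`-colourable then `K_{k+1}` is a minor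
of `G`. -/
def Hadwiger (V : Type) (G : SimpleGraph V) : Prop :=
  ∀ k : ℕ, ¬ G.Colorable k → HasCliqueMinor G (k + 1)

/-- Q1 holds for `G`: if `G` is not `k`-colourable then `K_k` is a minor of `G`. -/
def OffByOne (V : Type) (G : SimpleGraph V) : Prop :=
  ∀ k : ℕ, ¬ G.Colorable k → HasCliqueMinor G k

/-- `G'` is a clique inflation of `G`: every vertex `v` of `G` is replaced by a clique, the set of
the vertices `x` with `π x = v` (possibly empty), and the cliques of adjacent vertices are
completely joined. -/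
def IsInflation {V V' : Type} (G : SimpleGraph V) (G' : SimpleGraph V') (π : V' → V) : Prop :=
  ∀ x y, x ≠ y → (G'.Adj x y ↔ (π x = π y ∨ G.Adj (π x) (π y)))

/-- All finite clique inflations of `G` satisfy `P`. -/
def ForInflations (P : (V : Type) → SimpleGraph V → Prop) {V : Type} (G : SimpleGraph V) : Prop :=
  ∀ (V' : Type) [Finite V'] (G' : SimpleGraph V') (π : V' → V), IsInflation G G' π → P V' G'

/-- `G` is perfect: every induced subgraph without a clique on `k + 1` vertices is
`k`-colourable. -/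
def Perfect {V : Type} (G : SimpleGraph V) : Prop :=
  ∀ (S : Set V) (k : ℕ), (G.induce S).CliqueFree (k + 1) → (G.induce S).Colorable k

/-- `B` is `2K₂`-free: any two disjoint edges of `B` are joined by an edge of `B`. -/
def TwoK2Free {W : Type} (B : SimpleGraph W) : Prop :=
  ∀ a b c d : W, B.Adj a b → B.Adj c d → a ≠ c → a ≠ d → b ≠ c → b ≠ d →
    B.Adj a c ∨ B.Adj a d ∨ B.Adj b c ∨ B.Adj b d

/-- `G` is an amalgam with parts `X₁`, `X₂`: every vertex is in `X₁` or `X₂`; the common vertices
form a clique; `A₁` and `A₂` are sets of vertices that are only in `X₁` and only in `X₂`,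
respectively; `A₁` is complete to `A₂`, and the common vertices are complete to `A₁` and `A₂`; and
all edges between a vertex outside `X₂` and a vertex outside `X₁` join `A₁` to `A₂`. If there are no
common vertices, `G` is a `1`-join. The pieces of the amalgam are the subgraphs induced by
`X₁ ∪ {a₂}` and `X₂ ∪ {a₁}`, for vertices `a₁` of `A₁` and `a₂` of `A₂`. -/
def IsAmalgam {V : Type} (G : SimpleGraph V) (X₁ X₂ A₁ A₂ : Set V) : Prop :=
  (∀ v, v ∈ X₁ ∨ v ∈ X₂) ∧
  (∀ x y, x ∈ X₁ ∩ X₂ → y ∈ X₁ ∩ X₂ → x ≠ y → G.Adj x y) ∧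
  (A₁ ⊆ X₁ \ X₂ ∧ A₂ ⊆ X₂ \ X₁) ∧
  (∀ x ∈ A₁, ∀ y ∈ A₂, G.Adj x y) ∧
  (∀ x ∈ A₁ ∪ A₂, ∀ y ∈ X₁ ∩ X₂, G.Adj x y) ∧
  (∀ x y, x ∉ X₂ → y ∉ X₁ → G.Adj x y → x ∈ A₁ ∧ y ∈ A₂)

/-- The graphs built from the class `K`, perfect graphs, odd cycles and `2K₂`-free graphs by
amalgams, substitution, gluing along cliques, and passing to (isomorphic copies of) induced
subgraphs. In `subst` the fibres of `p` are modules of `G`, and `Q` is the quotient. In `glue` the
graph is the union of the subgraphs induced by `X` and `Y`, and `X ∩ Y` is a clique. -/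
inductive Built (K : (V : Type) → SimpleGraph V → Prop) : (V : Type) → SimpleGraph V → Prop
  | base (V : Type) (G : SimpleGraph V) : K V G → Built K V G
  | perfect (V : Type) (G : SimpleGraph V) : Perfect G → Built K V G
  | oddCycle (m : ℕ) : 1 ≤ m → Built K (Fin (2 * m + 1)) (SimpleGraph.cycleGraph (2 * m + 1))
  | twoK2Free (V : Type) (G : SimpleGraph V) : TwoK2Free G → Built K V G
  | amalgam (V : Type) (G : SimpleGraph V) (X₁ X₂ A₁ A₂ : Set V) (a₁ a₂ : V) :
      IsAmalgam G X₁ X₂ A₁ A₂ → a₁ ∈ A₁ → a₂ ∈ A₂ →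
      Built K (insert a₂ X₁ : Set V) (G.induce (insert a₂ X₁)) →
      Built K (insert a₁ X₂ : Set V) (G.induce (insert a₁ X₂)) → Built K V G
  | subst (V I : Type) [Finite I] (G : SimpleGraph V) (Q : SimpleGraph I) (p : V → I) :
      (∀ x y, p x ≠ p y → (G.Adj x y ↔ Q.Adj (p x) (p y))) → Built K I Q →
      (∀ i, Built K {x | p x = i} (G.induce {x | p x = i})) → Built K V G
  | glue (V : Type) (G : SimpleGraph V) (X Y : Set V) : (∀ v, v ∈ X ∨ v ∈ Y) →
      (∀ x y, G.Adj x y → (x ∈ X ∧ y ∈ X) ∨ (x ∈ Y ∧ y ∈ Y)) →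
      (∀ x y, x ∈ X → x ∈ Y → y ∈ X → y ∈ Y → x ≠ y → G.Adj x y) →
      Built K X (G.induce X) → Built K Y (G.induce Y) → Built K V G
  | induced (V W : Type) (G : SimpleGraph V) (H : SimpleGraph W) :
      (H ↪g G) → Built K V G → Built K W H

theorem amal_of {V : Type} {G : SimpleGraph V} {X₁ X₂ A₁ A₂ : Set V}
    (h : IsAmalgam G X₁ X₂ A₁ A₂) : Pool.Agent.H15.AM.Amal G X₁ X₂ A₁ A₂ := by
  obtain ⟨h1, h2, ⟨h3, h3'⟩, h4, h5, h6⟩ := h
  exact ⟨h1, fun x y a b c d e => h2 x y ⟨a, b⟩ ⟨c, d⟩ e, fun x hx => h3 hx, fun x hx => h3' hx,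
    fun x hx y a b => h5 x (Or.inl hx) y ⟨a, b⟩, fun x hx y a b => h5 x (Or.inr hx) y ⟨a, b⟩,
    h4, h6⟩

theorem twoK2_had {V V' : Type} [Finite V'] (B : SimpleGraph V) (hB : TwoK2Free B)
    (G : SimpleGraph V') (π : V' → V) (hπ : IsInflation B G π) : Hadwiger V' G := by
  have : Fintype V' := Fintype.ofFinite _
  intro k hk
  have hP : N684.HI.P2 B := by
    intro a b c d hab hcd
    by_cases h1 : a = c
    · subst h1; exact Or.inr (Or.inl hcd)
    by_cases h2 : a = d
    · subst h2; exact Or.inl hcd.symm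
    by_cases h3 : b = c
    · subst h3; exact Or.inl hab
    by_cases h4 : b = d
    · subst h4; exact Or.inr (Or.inl hab)
    exact hB a b c d hab hcd h1 h2 h3 h4
  refine N684.HI.hasCliqueMinor_of_sm G _
    (N684.HI.hadwiger_aux _ V' V G (B.comap π) π rfl ⟨?_, ?_, ?_⟩ k hk)
  · intro a b c d hab hcd
    exact hP _ _ _ _ hab hcd
  · intro x y z hxy hxz
    show B.Adj (π y) (π z)
    rw [← hxy]
    exact hxz
  · intro x y
    constructor
    · intro h
      exact ⟨G.ne_of_adj h, (hπ x y (G.ne_of_adj h)).1 h⟩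
    · rintro ⟨h1, h2⟩
      exact (hπ x y h1).2 h2

theorem built_all (K : (V : Type) → SimpleGraph V → Prop)
    (hK : ∀ (V : Type) (G : SimpleGraph V), K V G → ForInflations Hadwiger G) :
    ∀ (V : Type) (G : SimpleGraph V), Built K V G → ForInflations Hadwiger G := by
  intro V G h
  induction h with
  | base V G h => exact hK V G h
  | perfect V G h =>
    intro V' _ G' π hπ
    exact Pool.Agent.R553.HW.perfect_had G G' π hπ h
  | oddCycle m hm =>
    intro V' _ G' π hπ
    exact Pool.Agent.R553.HW.cycle_had m hm G' π hπ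
  | twoK2Free V G h =>
    intro V' _ G' π hπ
    exact twoK2_had G h G' π hπ
  | amalgam V G X₁ X₂ A₁ A₂ a₁ a₂ h h1 h2 _ _ ih1 ih2 =>
    exact Pool.Agent.H15.AM.all_amal (@Pool.Agent.R553.HW.Had) (Or.inl rfl) G (amal_of h) a₁ a₂
      h1 h2 ih1 ih2
  | subst V I G Q p hp _ _ ih1 ih2 =>
    exact Pool.Agent.R553.HW.all_subst (@Pool.Agent.R553.HW.Had) (Or.inl rfl) G Q p hp ih1 ih2
  | glue V G X Y h1 h2 h3 _ _ ih1 ih2 =>
    exact Pool.Agent.R553.HW.all_glue G X Y h1 h2 h3 ih1 ih2
  | induced V W G H f _ ih =>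
    exact Pool.Agent.R553.HW.all_embed (P := @Pool.Agent.R553.HW.Had) G H f ih

/-- (1) Every finite graph built from perfect graphs, odd cycles and `2K₂`-free graphs by amalgams,
substitution, gluing along cliques and induced subgraphs satisfies Hadwiger's conjecture.
(2) Let `G` be an amalgam of two pieces. If all clique inflations of both pieces satisfy Hadwiger's
conjecture, so do all clique inflations of `G`. If all clique inflations of one piece satisfy
Hadwiger's conjecture and all clique inflations of the other piece satisfy Q1, then all clique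
inflations of `G` satisfy Q1.
(3) If all clique inflations of the members of a class `K` satisfy Hadwiger's conjecture, so do all
clique inflations of the graphs built from `K`, perfect graphs, odd cycles and `2K₂`-free graphs by
the operations in (1). -/
theorem result :
    (∀ (V : Type) [Finite V] (G : SimpleGraph V), Built (fun _ _ => False) V G → Hadwiger V G) ∧
    (∀ (V : Type) (G : SimpleGraph V) (X₁ X₂ A₁ A₂ : Set V) (a₁ a₂ : V),
      IsAmalgam G X₁ X₂ A₁ A₂ → a₁ ∈ A₁ → a₂ ∈ A₂ →
      ForInflations Hadwiger (G.induce (insert a₂ X₁)) →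
      (ForInflations Hadwiger (G.induce (insert a₁ X₂)) → ForInflations Hadwiger G) ∧
      (ForInflations OffByOne (G.induce (insert a₁ X₂)) → ForInflations OffByOne G)) ∧
    (∀ K : (V : Type) → SimpleGraph V → Prop,
      (∀ (V : Type) (G : SimpleGraph V), K V G → ForInflations Hadwiger G) →
      (∀ (V : Type) (G : SimpleGraph V), Built K V G → ForInflations Hadwiger G)) := by
  refine ⟨?_, ?_, fun K hK => built_all K hK⟩
  · intro V _ G h
    refine built_all _ (fun _ _ h => h.elim) V G h V G id ?_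
    intro x y hxy
    exact ⟨fun h => Or.inr h, fun h => h.resolve_left hxy⟩
  · intro V G X₁ X₂ A₁ A₂ a₁ a₂ h h1 h2 k1
    exact ⟨fun k2 => Pool.Agent.H15.AM.all_amal (@Pool.Agent.R553.HW.Had) (Or.inl rfl) G
        (amal_of h) a₁ a₂ h1 h2 k1 k2,
      fun k2 => Pool.Agent.H15.AM.all_amal (@Pool.Agent.R553.HW.Obo) (Or.inr rfl) G
        (amal_of h) a₁ a₂ h1 h2 k1 k2⟩

end Pool.Agent.Results.MP_b47bfb_co.AmalgamClosure
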