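import Pool.Agent.H186.CN.Walk

/-!
MP_b47bfb_co: Hadwiger's conjecture (the full clique minor, hence Q1) for graphs in which any two,
or any three, vertices have few common non-neighbours, that is, for graphs whose complement has no
`K_{2,t+1}` or no `K_{3,t+1}`.

The class is closed under adding universal vertices, so that a bound for the chromatic number alone
would be equivalent to Hadwiger's conjecture; the conjecture is proved if the chromatic number
exceeds the clique number by an explicit polynomial in `t`, and every counterexample (to Hadwiger's
conjecture or to Q1) contains an induced counterexample of polynomial size, so both conjectures are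
finite problems for each `t`.

Proof.  Let `G` be vertex-critical, `H` its complement, and `m` the number of vertices of `H` which
are not isolated.  By Gallai's theorem it is enough to find a clique minor whose branch sets are one
vertex of each component of `H` and pairs.  If any three vertices have at most `t` common
neighbours in `H` and `m ≥ C t ^ 4`, then `O(t)` vertices have degree more than `m / (512 t)`, all
but `O(t)` vertices have degree at most `m / (2 ^ 20 t)`, and a vertex `x` of degree at most
`m / (512 t)` has, for all but few `y`, at most `c sqrt m` common neighbours with `y` (sets with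
pairwise small intersections).  If some component is large, the vertices of large degree are
dropped, and this loss is made up for by further single vertices of small degree in that component;
if all components are small, a vertex of large degree can be paired with any vertex outside its
component.  The other vertices are paired by the lopsided local lemma for random perfect matchings
(module `TH446.HN.Per`).
-/

set_option autoImplicit false

namespace Pool.Agent.Results.MP_b47bfb_co.FewCommonNonNeighbours

/-- `K_k` is a minor of `G`: there are `k` pairwise disjoint vertex sets, each inducing a connected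
subgraph, any two of them joined by an edge of `G`. -/
def HasCliqueMinor {V : Type} (G : SimpleGraph V) (k : ℕ) : Prop :=
  ∃ f : Fin k → Set V,
    (∀ i, (G.induce (f i)).Connected) ∧
    (∀ i j, i ≠ j → Disjoint (f i) (f j)) ∧
    (∀ i j, i ≠ j → ∃ u ∈ f i, ∃ v ∈ f j, G.Adj u v)

/-- Hadwiger's conjecture holds for `G`: if `G` is not `k`-colourable then `K_{k+1}` is a minor
of `G`. -/
def Hadwiger {V : Type} (G : SimpleGraph V) : Prop :=
  ∀ k : ℕ, ¬ G.Colorable k → HasCliqueMinor G (k + 1)

/-- Q1 holds for `G`: if `G` is not `k`-colourable then `K_k` is a minor of `G`. -/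
def OffByOne {V : Type} (G : SimpleGraph V) : Prop :=
  ∀ k : ℕ, ¬ G.Colorable k → HasCliqueMinor G k

/-- Any `r` vertices have at most `t` common non-neighbours (outside the `r` vertices). -/
def Few {V : Type} (G : SimpleGraph V) (r t : ℕ) : Prop :=
  ∀ T : Finset V, T.card = r → {v | ∀ x ∈ T, x ≠ v ∧ ¬ G.Adj x v}.ncard ≤ t

/-- For some `t ≥ 1`, any two vertices have at most `t` common non-neighbours and
`10 ^ 13 * t ^ 2 ≤ N`, or any three vertices have at most `t` common non-neighbours and
`10 ^ 19 * t ^ 4 ≤ N`. -/
def FewCommon {V : Type} (G : SimpleGraph V) (N : ℕ) : Prop :=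
  ∃ t : ℕ, 1 ≤ t ∧ ((Few G 2 t ∧ 10 ^ 13 * t ^ 2 ≤ N) ∨ (Few G 3 t ∧ 10 ^ 19 * t ^ 4 ≤ N))

/-- The number of vertices that have a non-neighbour. -/
noncomputable def numNonUniversal {V : Type} (G : SimpleGraph V) : ℕ :=
  {x : V | ∃ y, x ≠ y ∧ ¬ G.Adj x y}.ncard

/-- With `m = numNonUniversal G`: every vertex `x` has at most `m / 1024` non-neighbours, and for
the number `w` of walks `x, y, z` of length two from `x` in the complement of `G`
(`z = x` is allowed), `2 ^ 23 * w ^ 2 ≤ m ^ 3`. -/
def FewWalks {V : Type} (G : SimpleGraph V) : Prop :=
  (∀ x : V, 1024 * {y | x ≠ y ∧ ¬ G.Adj x y}.ncard ≤ numNonUniversal G) ∧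
  (∀ x : V, 2 ^ 23 * {p : V × V | (x ≠ p.1 ∧ ¬ G.Adj x p.1) ∧
    (p.1 ≠ p.2 ∧ ¬ G.Adj p.1 p.2)}.ncard ^ 2 ≤ numNonUniversal G ^ 3)

/-- (1) Let `G` be vertex-critical: not `k`-colourable, but `k`-colourable after the removal of any
vertex, and let `m` be the number of vertices that have a non-neighbour. If any two vertices have
at most `t` common non-neighbours, `m ≥ 10 ^ 13 t ^ 2`, or any three vertices have at most `t`
common non-neighbours, `m ≥ 10 ^ 19 t ^ 4`, `t ≥ 1`, or if every vertex has at most `m / 1024`
non-neighbours and starts at most `(m / 204) ^ (3 / 2)` walks of length two in the complement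
(`2 ^ 23` times the square of their number is at most `m ^ 3`), then `K_{k+1}` is a minor of `G`.
(2) Let any two vertices of `G` have at most `t` common non-neighbours and `N ≥ 10 ^ 13 t ^ 2`, or
any three at most `t` and `N ≥ 10 ^ 19 t ^ 4`. If the chromatic number of `G` is at least its clique
number plus `N`, then Hadwiger's conjecture holds for `G`: if `G` is not `k`-colourable and every
clique has at most `k + 1 - N` vertices, then `K_{k+1}` is a minor of `G`.
(3) For `G` and `N` as in (2), if Hadwiger's conjecture fails for `G` then it fails for an induced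
subgraph with fewer than `N` vertices.
(4) The same for the off-by-one form Q1. -/
theorem result :
    (∀ (V : Type) [Fintype V] (G : SimpleGraph V) (k : ℕ),
      (∀ v : V, (G.induce {v}ᶜ).Colorable k) → ¬ G.Colorable k →
      (FewCommon G (numNonUniversal G) ∨ FewWalks G) → HasCliqueMinor G (k + 1)) ∧
    (∀ (V : Type) [Fintype V] (G : SimpleGraph V) (N k : ℕ), FewCommon G N →
      (∀ K : Finset V, G.IsClique (K : Set V) → K.card + N ≤ k + 1) → ¬ G.Colorable k →
      HasCliqueMinor G (k + 1)) ∧
    (∀ (V : Type) [Fintype V] (G : SimpleGraph V) (N : ℕ), FewCommon G N → ¬ Hadwiger G →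
      ∃ U : Set V, ¬ Hadwiger (G.induce U) ∧ U.ncard < N) ∧
    (∀ (V : Type) [Fintype V] (G : SimpleGraph V) (N : ℕ), FewCommon G N → ¬ OffByOne G →
      ∃ U : Set V, ¬ OffByOne (G.induce U) ∧ U.ncard < N) := by
  refine ⟨?_, ?_, ?_, ?_⟩
  · intro V _ G k hcol hk h
    rcases h with h | h
    · exact Pool.Agent.H186.CN.vertex_critical G k h hcol hk
    · exact Pool.Agent.H186.CN.vertex_critical_walk G k h.1 h.2 hcol hk
  · intro V _ G N k h hcl hk
    exact Pool.Agent.H186.CN.large_chi G N k h hcl hk
  · intro V _ G N h hn
    exact Pool.Agent.H186.CN.local_small G N 1 le_rfl h hn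
  · intro V _ G N h hn
    exact Pool.Agent.H186.CN.local_small G N 0 (by norm_num) h hn

end Pool.Agent.Results.MP_b47bfb_co.FewCommonNonNeighbours
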