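import Pool.Agent.H186.CN.Walk
import Pool.Agent.H186.CN.Sharp

/-!
MP_b47bfb_co: how few common non-neighbours must any `r` vertices of a graph on `n` vertices have so
that it contains a `K_{⌈n/2⌉}` minor (and hence satisfies Hadwiger's conjecture if its chromatic
number is at most `⌈n/2⌉`, and Q1 if it is at most `⌈n/2⌉ + 1`)?  For `r = 1` the answer
`n ^ (3 / 4)` was known up to a logarithmic factor.  Here `r = 2, 3`: the answers are `n ^ (1 / 2)`
and `n ^ (1 / 4)`, up to logarithmic factors, with no condition on the number of non-neighbours of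
the single vertices; for `r = 4` no such theorem holds, even for `O(log n)` common non-neighbours.
The common reason is a criterion by walks of length two in the complement.

Proof.  The vertices are paired by the lopsided local lemma for random perfect matchings (module
`TH446.HN.Per`); two pairs are in conflict if they span a cycle of length four in the complement.
Vertices with very many non-neighbours are few; they are dropped, and single vertices with few
non-neighbours which form a clique make up for the loss.  The examples are random graphs.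
-/

set_option autoImplicit false

namespace Pool.Agent.Results.MP_b47bfb_co.HalfMinorCommon

/-- `K_k` is a minor of `G`: there are `k` pairwise disjoint vertex sets, each inducing a connected
subgraph, any two of them joined by an edge of `G`. -/
def HasCliqueMinor {V : Type} (G : SimpleGraph V) (k : ℕ) : Prop :=
  ∃ f : Fin k → Set V,
    (∀ i, (G.induce (f i)).Connected) ∧
    (∀ i j, i ≠ j → Disjoint (f i) (f j)) ∧
    (∀ i j, i ≠ j → ∃ u ∈ f i, ∃ v ∈ f j, G.Adj u v)

/-- Any `r` vertices have at most `t` common non-neighbours (outside the `r` vertices). -/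
def Few {V : Type} (G : SimpleGraph V) (r t : ℕ) : Prop :=
  ∀ T : Finset V, T.card = r → {v | ∀ x ∈ T, x ≠ v ∧ ¬ G.Adj x v}.ncard ≤ t

/-- Let `G` be a graph on `n` vertices.
(1) If any two vertices have at most `t` common non-neighbours, `t ≥ 1` and
`n ≥ 4 * 10 ^ 10 * t ^ 2`, then `K_{⌈n/2⌉}` is a minor of `G`.
(2) The same if any three vertices have at most `t` common non-neighbours, `t ≥ 1` and
`n ≥ 4 * 10 ^ 16 * t ^ 4`.
(3) The same if every vertex has at most `n / 256` non-neighbours and starts at most
`(n / 162) ^ (3 / 2)` walks of length two in the complement (`2 ^ 22` times the square of their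
number is at most `n ^ 3`); for instance if `n ≥ 1000` and every vertex has at most
`n ^ (3 / 4) / 46` non-neighbours.
(4) For every `n ≥ 3` there is a graph on `n` vertices without a `K_{⌈n/2⌉}` minor in which, for
`r = 1, 2, 3, 4`, any `r` vertices have at most `4000 n ^ (1 - r / 4) (log n) ^ (r / 4)` common
non-neighbours. -/
theorem result :
    (∀ (V : Type) [Fintype V] (G : SimpleGraph V) (t : ℕ), 1 ≤ t → Few G 2 t →
      4 * 10 ^ 10 * t ^ 2 ≤ Fintype.card V → HasCliqueMinor G ((Fintype.card V + 1) / 2)) ∧
    (∀ (V : Type) [Fintype V] (G : SimpleGraph V) (t : ℕ), 1 ≤ t → Few G 3 t →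
      4 * 10 ^ 16 * t ^ 4 ≤ Fintype.card V → HasCliqueMinor G ((Fintype.card V + 1) / 2)) ∧
    (∀ (V : Type) [Fintype V] (G : SimpleGraph V),
      (∀ x : V, 256 * {y | x ≠ y ∧ ¬ G.Adj x y}.ncard ≤ Fintype.card V) →
      (∀ x : V, 2 ^ 22 * {p : V × V | (x ≠ p.1 ∧ ¬ G.Adj x p.1) ∧
        (p.1 ≠ p.2 ∧ ¬ G.Adj p.1 p.2)}.ncard ^ 2 ≤ Fintype.card V ^ 3) →
      HasCliqueMinor G ((Fintype.card V + 1) / 2)) ∧
    (∀ n : ℕ, 3 ≤ n → ∃ G : SimpleGraph (Fin n),
      (∀ r : ℕ, 1 ≤ r → r ≤ 4 → ∀ T : Finset (Fin n), T.card = r →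
        ({v | ∀ x ∈ T, x ≠ v ∧ ¬ G.Adj x v}.ncard : ℝ) ≤
          4000 * (n : ℝ) ^ (1 - (r : ℝ) / 4) * Real.log n ^ ((r : ℝ) / 4)) ∧
      ¬ HasCliqueMinor G ((n + 1) / 2)) := by
  refine ⟨?_, ?_, ?_, ?_⟩
  · intro V _ G t ht h hn
    exact Pool.Agent.H186.CN.half_two V G t ht h hn
  · intro V _ G t ht h hn
    exact Pool.Agent.H186.CN.half_three V G t ht h hn
  · intro V _ G h1 h2
    exact Pool.Agent.H186.CN.half_walk V G h1 h2
  · intro n hn
    exact Pool.Agent.H186.CN.sharp4 n hn

end Pool.Agent.Results.MP_b47bfb_co.HalfMinorCommon
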