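import Pool.Agent.H8.HW.Prob

set_option autoImplicit false

open scoped Classical ENNReal

open MeasureTheory Measure ProbabilityTheory unitInterval

namespace Pool.Agent.Results.MP_b47bfb_co.PerturbedAlphaTwo

/-- `G` has a `K_t` minor: `t` disjoint vertex sets, each inducing a connected graph, any two of
them joined by an edge. -/
def HasCliqueMinor {V : Type} (G : SimpleGraph V) (t : ℕ) : Prop :=
  ∃ B : Fin t → Set V, (∀ i, (G.induce (B i)).Connected) ∧
    (∀ i j, i ≠ j → Disjoint (B i) (B j)) ∧ ∀ i j, i ≠ j → ∃ u ∈ B i, ∃ v ∈ B j, G.Adj u v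

/-- Hadwiger's conjecture holds for `G`: it has a `K_{k+1}` minor for every `k` for which it has
no proper colouring with `k` colours, that is, a `K_{χ(G)}` minor. -/
def Hadwiger {V : Type} (G : SimpleGraph V) : Prop :=
  ∀ k : ℕ, ¬ G.Colorable k → HasCliqueMinor G (k + 1)

/-- independence number at most two: among any three vertices there are two adjacent ones -/
def AlphaTwo {V : Type} (G : SimpleGraph V) : Prop :=
  ∀ x y z, x ≠ y → x ≠ z → y ≠ z → G.Adj x y ∨ G.Adj x z ∨ G.Adj y z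

/-- the vertices of `W` other than `v` and not adjacent to `v` -/
noncomputable def nonNbrs {V : Type} (G : SimpleGraph V) (W : Finset V) (v : V) : Finset V :=
  W.filter fun w => v ≠ w ∧ ¬ G.Adj v w

/-- a dominating edge: any further vertex is adjacent to one of its two ends -/
def DominatingEdge {V : Type} (G : SimpleGraph V) (x y : V) : Prop :=
  G.Adj x y ∧ ∀ z, z ≠ x → z ≠ y → G.Adj x z ∨ G.Adj y z

/-- every vertex set `U` containing no dominating edge (of `G`) spans at most `m |U|` non-edges;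
the sum counts each of them twice -/
def FewNonEdges {V : Type} (G : SimpleGraph V) (m : ℕ) : Prop :=
  ∀ U : Finset V, (∀ x ∈ U, ∀ y ∈ U, ¬ DominatingEdge G x y) →
    ∑ v ∈ U, (nonNbrs G U v).card ≤ 2 * m * U.card

/-- any two disjoint sets of `m` vertices are joined by an edge -/
def Joined {V : Type} (G : SimpleGraph V) (m : ℕ) : Prop :=
  ∀ A B : Finset V, A.card = m → B.card = m → Disjoint A B → ∃ x ∈ A, ∃ y ∈ B, G.Adj x y

theorem nonNbrs_eq {V : Type} (G : SimpleGraph V) (W : Finset V) (v : V) :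
    nonNbrs G W v = W.filter (Pool.Agent.H8.HW.nadj G v) := by
  ext w
  unfold nonNbrs
  rw [Finset.mem_filter, Finset.mem_filter]
  exact Iff.rfl

theorem minor_of_md {V : Type} {G : SimpleGraph V} {W : Finset V} {t : ℕ}
    (h : Pool.Agent.H8.HW.Md G W t) : HasCliqueMinor (G.induce (W : Set V)) t := by
  obtain ⟨f, h1, h2, h3, h4⟩ := h
  refine ⟨fun i => {x | (x : V) ∈ f i}, fun i => ?_, fun i j hij => ?_, fun i j hij => ?_⟩
  · let g : G.induce (f i : Set V) →g
        (G.induce (W : Set V)).induce {x : (W : Set V) | (x : V) ∈ f i} :=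
      ⟨fun x => ⟨⟨x.1, h1 i x.2⟩, x.2⟩, fun {a b} hab => hab⟩
    refine (h2 i).map g ?_
    rintro ⟨⟨x, hx⟩, hx'⟩
    exact ⟨⟨x, hx'⟩, rfl⟩
  · rw [Set.disjoint_left]
    intro x hx hx'
    exact Finset.disjoint_left.1 (h3 i j hij) hx hx'
  · obtain ⟨u, hu, v, hv, huv⟩ := h4 i j hij
    exact ⟨⟨u, h1 i hu⟩, hu, ⟨v, h1 j hv⟩, hv, huv⟩

theorem of_good {V : Type} [Fintype V] {G : SimpleGraph V} {m : ℕ}
    (hg : Pool.Agent.H8.HW.Good G m) (W : Finset V) :
    (10 ^ 12 * m ^ 12 ≤ W.card →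
      HasCliqueMinor (G.induce (W : Set V)) ((W.card + 1) / 2)) ∧
    ((∀ v ∈ W, 10 ^ 26 * m ^ 28 ≤ (nonNbrs G W v).card) → Hadwiger (G.induce (W : Set V))) := by
  refine ⟨fun h => minor_of_md (Pool.Agent.H8.HW.half hg W (le_trans ?_ h)), fun h k hk =>
    minor_of_md (Pool.Agent.H8.HW.exact_had hg W (fun v hv => ?_) k hk)⟩
  · have e : 600000 * m ^ 6 * (600000 * m ^ 6) = 360000000000 * m ^ 12 := by ring
    rw [e]
    exact Nat.mul_le_mul_right _ (by norm_num)
  · have e : Pool.Agent.H8.HW.d0 m = 38880000000000000000000000 * m ^ 28 := by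
      unfold Pool.Agent.H8.HW.d0 Pool.Agent.H8.HW.w1 Pool.Agent.H8.HW.w0
      ring
    have h2 := h v hv
    rw [nonNbrs_eq] at h2
    refine le_trans ?_ h2
    rw [e]
    exact Nat.mul_le_mul_right _ (by norm_num)

theorem det {V : Type} [Fintype V] (m : ℕ) (G G' : SimpleGraph V) (hm : 1 ≤ m)
    (hlog : Real.log (Fintype.card V) ≤ m) (h1 : AlphaTwo G) (h2 : FewNonEdges G m)
    (h3 : Joined G m) (hG : G ≤ G') (W : Finset V) :
    (10 ^ 12 * m ^ 12 ≤ W.card →
      HasCliqueMinor (G'.induce (W : Set V)) ((W.card + 1) / 2)) ∧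
    ((∀ v ∈ W, 10 ^ 26 * m ^ 28 ≤ (nonNbrs G' W v).card) →
      Hadwiger (G'.induce (W : Set V))) := by
  rcases Nat.eq_zero_or_pos (Fintype.card V) with h0 | hpos
  · have hW : W.card = 0 := by
      have := Finset.card_le_univ W
      omega
    have hW' : W = ∅ := Finset.card_eq_zero.1 hW
    refine ⟨fun _ => ?_, fun _ k hk => ?_⟩
    · rw [hW]
      exact ⟨fun i => i.elim0, fun i => i.elim0, fun i => i.elim0, fun i => i.elim0⟩
    · exfalso
      apply hk
      subst hW'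
      exact ⟨SimpleGraph.Coloring.mk (fun x => absurd x.2 (Finset.notMem_empty _))
        (fun {x} => absurd x.2 (Finset.notMem_empty _))⟩
  · have hg : Pool.Agent.H8.HW.Good G m := by
      refine ⟨h1, fun U hU => ?_, h3, hm, Pool.Agent.H8.HW.hK_of _ m hpos hm hlog⟩
      refine le_trans (le_of_eq ?_) (h2 U hU)
      exact Finset.sum_congr rfl fun v _ => by rw [nonNbrs_eq]
    exact of_good (hg.mono hG) W

theorem rand (ε : ℝ) (hε : 0 < ε) : ∃ n₀ : ℕ, ∀ (V : Type) [Fintype V] (H : SimpleGraph V)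
    (p : I), n₀ ≤ Fintype.card V → AlphaTwo H → (Fintype.card V : ℝ) ^ (-(ε / 30)) ≤ p →
    SimpleGraph.binomialRandom V p {R : SimpleGraph V | ¬ ∀ G : SimpleGraph V, H ⊔ R ≤ G →
      ∀ W : Finset V,
        ((Fintype.card V : ℝ) ^ ε ≤ W.card →
          HasCliqueMinor (G.induce (W : Set V)) ((W.card + 1) / 2)) ∧
        ((∀ v ∈ W, (Fintype.card V : ℝ) ^ ε ≤ (nonNbrs G W v).card) →
          Hadwiger (G.induce (W : Set V)))} ≤ ENNReal.ofReal (1 / Fintype.card V) := by
  set δ : ℝ := ε / 840 with hδ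
  have hδ0 : 0 < δ := by positivity
  set C : ℝ := 10 ^ 26 * (5 / δ + 1) ^ 28 with hC
  have hC0 : 0 < C := by positivity
  refine ⟨⌈C ^ (30 / ε)⌉₊ + 2, ?_⟩
  intro V _ H p hn hH hp
  set N : ℕ := Fintype.card V with hN
  set n : ℝ := (N : ℝ) with hndef
  have hN2 : 2 ≤ N := by omega
  have hn2 : (2 : ℝ) ≤ n := by rw [hndef]; exact_mod_cast hN2
  have hn0 : 0 < n := by linarith
  have hn1 : 1 ≤ n := by linarith
  have hCn : C ^ (30 / ε) ≤ n := by
    refine (Nat.le_ceil _).trans ?_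
    rw [hndef]
    exact_mod_cast (by omega : ⌈C ^ (30 / ε)⌉₊ ≤ N)
  have hCn' : C ≤ n ^ (ε / 30) := by
    have h1 : (C ^ (30 / ε)) ^ (ε / 30) ≤ n ^ (ε / 30) :=
      Real.rpow_le_rpow (by positivity) hCn (by positivity)
    rwa [← Real.rpow_mul hC0.le, show 30 / ε * (ε / 30) = 1 by field_simp,
      Real.rpow_one] at h1
  have hp0 : 0 < (p : ℝ) := lt_of_lt_of_le (Real.rpow_pos_of_pos hn0 _) hp
  have hlog0 : 0 ≤ Real.log n := Real.log_nonneg hn1
  set m : ℕ := ⌈5 * Real.log n / p⌉₊ with hmdef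
  have hmpos : 0 < m := by
    rw [hmdef, Nat.ceil_pos]
    have : 0 < Real.log n := Real.log_pos (by linarith)
    positivity
  have hlog : 5 * Real.log n ≤ p * m := by
    have h1 : 5 * Real.log n / p ≤ m := Nat.le_ceil _
    rw [div_le_iff₀ hp0] at h1
    linarith
  have hm1 : (m : ℝ) ≤ (5 / δ + 1) * n ^ (ε / 30 + δ) := by
    have h1 : (m : ℝ) < 5 * Real.log n / p + 1 := Nat.ceil_lt_add_one (by positivity)
    have h2 : Real.log n ≤ n ^ δ / δ := Real.log_le_rpow_div hn0.le hδ0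
    have h3 : 1 / (p : ℝ) ≤ n ^ (ε / 30) := by
      rw [div_le_iff₀ hp0]
      calc (1 : ℝ) = n ^ (ε / 30) * n ^ (-(ε / 30)) := by
            rw [← Real.rpow_add hn0]
            simp
        _ ≤ n ^ (ε / 30) * p := mul_le_mul_of_nonneg_left hp (by positivity)
    have h4 : 5 * Real.log n / p ≤ 5 / δ * n ^ (ε / 30 + δ) := by
      calc 5 * Real.log n / p = 5 * Real.log n * (1 / p) := by ring
        _ ≤ 5 * (n ^ δ / δ) * n ^ (ε / 30) := by
            refine mul_le_mul (by linarith) h3 (by positivity) (by positivity)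
        _ = 5 / δ * (n ^ (ε / 30) * n ^ δ) := by ring
        _ = 5 / δ * n ^ (ε / 30 + δ) := by rw [← Real.rpow_add hn0]
    have h5 : 1 ≤ n ^ (ε / 30 + δ) := Real.one_le_rpow hn1 (by positivity)
    linarith
  have hm28 : (10 ^ 26 * m ^ 28 : ℝ) ≤ n ^ ε := by
    have h1 : (m : ℝ) ^ 28 ≤ (5 / δ + 1) ^ 28 * n ^ (29 * (ε / 30)) := by
      calc (m : ℝ) ^ 28 ≤ ((5 / δ + 1) * n ^ (ε / 30 + δ)) ^ 28 :=
            pow_le_pow_left₀ (Nat.cast_nonneg _) hm1 _
        _ = (5 / δ + 1) ^ 28 * (n ^ (ε / 30 + δ)) ^ (28 : ℕ) := by rw [mul_pow]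
        _ = (5 / δ + 1) ^ 28 * n ^ (29 * (ε / 30)) := by
            rw [← Real.rpow_natCast (n ^ (ε / 30 + δ)) 28, ← Real.rpow_mul hn0.le]
            congr 2
            rw [hδ]
            push_cast
            ring
    calc (10 ^ 26 * m ^ 28 : ℝ) ≤ 10 ^ 26 * ((5 / δ + 1) ^ 28 * n ^ (29 * (ε / 30))) :=
          mul_le_mul_of_nonneg_left h1 (by positivity)
      _ = C * n ^ (29 * (ε / 30)) := by rw [hC]; ring
      _ ≤ n ^ (ε / 30) * n ^ (29 * (ε / 30)) :=
          mul_le_mul_of_nonneg_right hCn' (by positivity)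
      _ = n ^ ε := by
          rw [← Real.rpow_add hn0]
          congr 1
          ring
  have hm12 : (10 ^ 12 * m ^ 12 : ℝ) ≤ n ^ ε := by
    refine le_trans ?_ hm28
    have h1 : (1 : ℝ) ≤ m := by exact_mod_cast hmpos
    exact mul_le_mul (by norm_num) (pow_le_pow_right₀ h1 (by norm_num)) (by positivity)
      (by positivity)
  refine le_trans (measure_mono ?_) (Pool.Agent.H8.HW.prob_good p H m hmpos hN2 hH hlog)
  intro R hR hg
  apply hR
  intro G hG W
  have key := of_good (hg.mono hG) W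
  refine ⟨fun h => key.1 ?_, fun h => key.2 fun v hv => ?_⟩
  · have := hm12.trans h
    exact_mod_cast this
  · have := hm28.trans (h v hv)
    exact_mod_cast this

/-- See the claim file. -/
theorem result :
    (∀ (V : Type) [Fintype V] (m : ℕ) (G G' : SimpleGraph V), 1 ≤ m →
      Real.log (Fintype.card V) ≤ m → AlphaTwo G → FewNonEdges G m → Joined G m → G ≤ G' →
      ∀ W : Finset V,
        (10 ^ 12 * m ^ 12 ≤ W.card →
          HasCliqueMinor (G'.induce (W : Set V)) ((W.card + 1) / 2)) ∧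
        ((∀ v ∈ W, 10 ^ 26 * m ^ 28 ≤ (nonNbrs G' W v).card) →
          Hadwiger (G'.induce (W : Set V)))) ∧
    (∀ ε : ℝ, 0 < ε → ∃ n₀ : ℕ, ∀ (V : Type) [Fintype V] (H : SimpleGraph V) (p : I),
      n₀ ≤ Fintype.card V → AlphaTwo H → (Fintype.card V : ℝ) ^ (-(ε / 30)) ≤ p →
      SimpleGraph.binomialRandom V p {R : SimpleGraph V | ¬ ∀ G : SimpleGraph V, H ⊔ R ≤ G →
        ∀ W : Finset V,
          ((Fintype.card V : ℝ) ^ ε ≤ W.card →
            HasCliqueMinor (G.induce (W : Set V)) ((W.card + 1) / 2)) ∧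
          ((∀ v ∈ W, (Fintype.card V : ℝ) ^ ε ≤ (nonNbrs G W v).card) →
            Hadwiger (G.induce (W : Set V)))} ≤ ENNReal.ofReal (1 / Fintype.card V)) :=
  ⟨fun _ _ m G G' hm hlog h1 h2 h3 hG W => det m G G' hm hlog h1 h2 h3 hG W, rand⟩

end Pool.Agent.Results.MP_b47bfb_co.PerturbedAlphaTwo
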